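import Pool.Agent.Lib.MP_1ebeae_al.BGFinal

/-!
Equations in the Baumslag-Gersten group in which the variable occurs only through conjugation.
-/

namespace Pool.Agent.FS.BGConj

open HNNExtension Pool.Agent.Lib.MP_1ebeae_al

theorem single (U : Tm) : ∃ W : GE,
    (∀ (Γ : Type) [Group Γ] (A T : Γ) (n : ℕ), (T * A * T⁻¹) * A * (T * A * T⁻¹)⁻¹ = A ^ 2 →
      (∃ τ y m : ℤ, Ev n τ y U m) →
      ∃ y τ : ℤ, GE.ev (A ^ y * (T * A * T⁻¹) ^ τ) A T n W = 1) ∧
    ∀ n : ℕ, ∀ X ∈ G0, evH X n W = 1 → ∃ τ y m : ℤ, Ev n τ y U m := by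
  obtain ⟨P, h1, h2, ⟨D, h3⟩, h4⟩ := exists_merge U.sys (sys_inB U)
  obtain ⟨E, hE⟩ := rho_fix P
  obtain ⟨F, hF⟩ := qh_ev P
  refine ⟨GE.subst (.mul .x .u0) (.mul (.inv .top) (GE.down (D + 2 * E + F + 1 + 1) P)),
    fun Γ _ A T n h ⟨τ, y, m, hU⟩ => ?_, fun n X hX h => ?_⟩
  · obtain ⟨h5, h6⟩ := sound h n U τ y m hU
    refine ⟨y, τ, ?_⟩
    have h7 : GE.ev (A ^ y * (T * A * T⁻¹) ^ τ) A T n (.mul .x .u0) =
        A ^ y * (T * A * T⁻¹) ^ τ := by rw [GE.ev, h5, mul_one, GE.ev]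
    rw [GE.ev_subst, h7, GE.ev, GE.ev, GE.ev_top, GE.ev_down, tp_sound h, h2 Γ _ A T n h6]
    group
  · rw [evH, GE.ev_subst] at h
    have hk : kap (evH X n (.mul .x .u0)) = 0 := by
      rw [kap_ev, GE.deg, deg_u0, show (GE.mul .x .u0).tdeg = 0 by decide]
      simp [GE.deg]
    have hm := ev_mem hX n (.mul .x .u0)
    change evH (evH X n (.mul .x .u0)) n _ = 1 at h
    generalize evH X n (.mul .x .u0) = Z at h hk hm
    obtain ⟨N, hN⟩ : ∃ N, N = D + 2 * E + F + 1 := ⟨_, rfl⟩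
    rw [← hN] at h
    have h5 : evH Z n .top = evH Z n (GE.down (N + 1) P) := inv_mul_eq_one.1 h
    have h6 : ∀ l : ℤ, l < 0 → tp (rho l Z) (of dd) =
        t⁻¹ * ((t ^ N)⁻¹ * (rho (l + (N + 1 : ℕ)) (evH Z n P) * t ^ (N + 1))) := by
      intro l hl
      have := congrArg (rho l) h5
      rw [rho_down, evH, GE.ev_top, dd_eq] at this
      rw [← mul_assoc, ← mul_inv_rev, ← pow_succ, ← mul_assoc, ← this]
      simp only [tp, rho_mul, rho_inv, kap_mul, kap_inv, kap_of, hk, add_zero, neg_zero, sub_zero,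
        rho_of_neg hl]
    have h7 : ∀ l : ℤ, l < 0 → D ≤ l + (N + 1 : ℕ) → ∃ β ∈ B0, rho l Z = of β := by
      intro l hl hl'
      refine rigid (rho_mem hm l) (Qh.down_pow N ?_) (h6 l hl)
      rw [h3 Z n hk _ hl', one_mul]
      exact_mod_cast qh_pow (N + 1)
    obtain ⟨β, hβ, h8⟩ := h7 (-1) (by omega) (by omega)
    have h9 : rho (-E - 1) (evH Z n P) = evH (of β) n P :=
      hE Z (of β) n hk _ (by omega) fun l _ _ => by
        obtain ⟨γ, -, hγ⟩ := h7 l (by omega) (by omega)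
        rw [← h8, ← rho_rho Z l (-1) (by omega), hγ, rho_of_neg (by omega)]
    have h10 := h6 (-E - 1 - (N + 1 : ℕ)) (by omega)
    rw [sub_add_cancel, h9] at h10
    obtain ⟨γ, -, hγ⟩ := rigid (rho_mem hm _) (Qh.down_pow N (by
      have := (hF β hβ n _ _ (by omega) (qh_pow (N + 1))).1
      rw [h1, add_zero] at this
      exact_mod_cast this)) h10
    rw [hγ, tp_base, ← mul_assoc, ← mul_inv_rev, ← pow_succ, eq_comm, inv_mul_eq_one, eq_comm,
      mul_eq_right] at h10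
    exact complete _ n U (h4 β n h10)

/-- a product of constants and of conjugates of constants by `g` -/
def ph {Γ : Type} [Group Γ] (g A T : Γ) : Γ :=
  (T * A * T⁻¹) * (g * (T * A * T⁻¹)⁻¹ * g⁻¹) * (T * (T * A * T⁻¹) * T⁻¹) *
    (g * (T * A * T⁻¹) * g⁻¹) * (T * A * T⁻¹)⁻¹ * (g * (T * (T * A * T⁻¹) * T⁻¹)⁻¹ * g⁻¹) *
    (T * A * T⁻¹) * (g * (T * A * T⁻¹)⁻¹ * g⁻¹)

theorem dbl {Γ : Type} [Group Γ] {A B : Γ} (h : B * A * B⁻¹ = A ^ 2) (y : ℤ) :
    B * A ^ y * B⁻¹ * (A ^ y)⁻¹ = A ^ y := by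
  rw [← conj_zpow, h, pow_two, (Commute.refl A).mul_zpow, mul_inv_cancel_right]

theorem ph_fix {Γ : Type} [Group Γ] {A T : Γ} (h : (T * A * T⁻¹) * A * (T * A * T⁻¹)⁻¹ = A ^ 2)
    (y τ : ℤ) : ph (A ^ y * (T * A * T⁻¹) ^ τ) A T = A ^ y * (T * A * T⁻¹) ^ τ := by
  have h2 : (T * (T * A * T⁻¹) * T⁻¹) * (T * A * T⁻¹) * (T * (T * A * T⁻¹) * T⁻¹)⁻¹ =
      (T * A * T⁻¹) ^ 2 := by rw [conj_pow, ← h]; group
  have e1 := dbl h y
  have e2 := dbl h2 τ
  unfold ph
  generalize T * (T * A * T⁻¹) * T⁻¹ = C at e2 ⊢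
  generalize T * A * T⁻¹ = B at e1 e2 ⊢
  have k : ∀ s : ℤ, A ^ y * B ^ τ * B ^ s * (A ^ y * B ^ τ)⁻¹ = A ^ y * B ^ s * (A ^ y)⁻¹ :=
    fun s => by group
  have k1 := k 1
  have k2 := k (-1)
  rw [zpow_one] at k1
  rw [zpow_neg_one] at k2
  rw [k1, k2]
  generalize A ^ y = P at e1 ⊢
  generalize B ^ τ = Q at e2 ⊢
  calc _ = (B * P * B⁻¹ * P⁻¹) * C * (B * P * B⁻¹ * P⁻¹)⁻¹ * (P * Q * C⁻¹ * (P * Q)⁻¹) *
        (B * P * B⁻¹ * P⁻¹) := by group
    _ = P * (C * Q * C⁻¹ * Q⁻¹) := by rw [e1]; group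
    _ = _ := by rw [e2]

theorem red (U : Tm) : ∃ W : GE, ∀ n : ℕ, (∃ τ y m : ℤ, Ev n τ y U m) ↔
    ∃ g : PresentedGroup ({rel2} : Set (FreeGroup (Fin 2))),
      GE.ev (ph g (PresentedGroup.of 0) (PresentedGroup.of 1)) (PresentedGroup.of 0)
        (PresentedGroup.of 1) n W = 1 := by
  obtain ⟨W, h1, h2⟩ := single U
  refine ⟨W, fun n => ⟨fun h => ?_, ?_⟩⟩
  · have hr := (lift_rel2 (PresentedGroup.of (rels := ({rel2} : Set (FreeGroup (Fin 2)))))).1 ?_
    · obtain ⟨y, τ, h3⟩ := h1 _ _ _ n hr h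
      exact ⟨_, by rwa [ph_fix hr y τ]⟩
    have : FreeGroup.lift (PresentedGroup.of (rels := ({rel2} : Set (FreeGroup (Fin 2)))))
        = PresentedGroup.mk _ := by
      ext i
      simp [PresentedGroup.of]
    rw [this]
    exact PresentedGroup.one_of_mem rfl
  · rintro ⟨g, hg⟩
    generalize ph g _ _ = g at hg
    let F : Fin 2 → HH := ![of ⟨1, 0⟩, t]
    have hF : ∀ r ∈ ({rel2} : Set (FreeGroup (Fin 2))), FreeGroup.lift F r = 1 := by
      rintro r rfl
      rw [lift_rel2]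
      have h1 := t_conj 1
      rw [Int.cast_one] at h1
      simp only [F, Matrix.cons_val_one, Matrix.cons_val_zero, ← map_mul, ← map_inv, ← map_pow, h1]
      congr 1
      ext
      · simp [pow_two]
        norm_num
      · simp [pow_two]
    have h3 := congrArg (PresentedGroup.toGroup hF) hg
    rw [GE.map_ev, map_one] at h3
    simp only [PresentedGroup.toGroup.of] at h3
    refine h2 n _ ?_ h3
    refine PresentedGroup.generated_by _ (G0.comap (PresentedGroup.toGroup hF)) (fun i => ?_) g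
    rw [Subgroup.mem_comap, PresentedGroup.toGroup.of]
    fin_cases i
    · exact of_mem_G0 (by simpa using int_mem_B0 1 0)
    · exact t_mem_G0

/-- the word `t a t⁻¹` or its inverse -/
def wb (s : Bool) : List (Fin 2 × Bool) := [(1, true), (0, s), (1, false)]

/-- the word `t t a t⁻¹ t⁻¹` or its inverse -/
def wc (s : Bool) : List (Fin 2 × Bool) := [(1, true), (1, true), (0, s), (1, false), (1, false)]

/-- the list of pairs of words of an expression or of its inverse -/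
def cj (n : ℕ) : GE → Bool → List (List (Fin 2 × Bool) × List (Fin 2 × Bool))
  | .x, true => [([], wb true), (wb false, wc true), (wb true, wb false), (wc false, wb true),
      (wb false, [])]
  | .x, false => [(wb true, wb false), (wc true, wb true), (wb false, wc false),
      (wb true, wb false), ([], [])]
  | .a, s => [([], [(0, s)])]
  | .t, s => [([], [(1, s)])]
  | .apow, s => [([], List.replicate n (0, s))]
  | .mul e f, true => cj n e true ++ cj n f true
  | .mul e f, false => cj n f false ++ cj n e false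
  | .inv e, s => cj n e (!s)

theorem cj_len (e : GE) : ∀ s n, (cj n e s).length = (cj 0 e s).length := by
  induction e with
  | mul e f ihe ihf => rintro (_ | _) n <;> simp only [cj, List.length_append, ihe _ n, ihf _ n]
  | inv e ih => exact fun s n => ih _ n
  | x => rintro (_ | _) n <;> rfl
  | _ => exact fun s n => rfl

theorem cj_prim (e : GE) : ∀ s, Primrec fun n => cj n e s := by
  induction e with
  | mul e f ihe ihf =>
    rintro (_ | _)
    exacts [Primrec.list_append.comp (ihf _) (ihe _), Primrec.list_append.comp (ihe _) (ihf _)]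
  | inv e ih => exact fun s => ih _
  | apow =>
    exact fun s => Primrec.list_cons.comp (Primrec.pair (Primrec.const _) (primrec_replicate _))
      (Primrec.const _)
  | x => rintro (_ | _) <;> exact Primrec.const _
  | _ => exact fun s => Primrec.const _

theorem cj_ev {Γ : Type} [Group Γ] (F : Fin 2 → Γ) (g : Γ) (n : ℕ) (e : GE) :
    ((cj n e true).map fun p => g * FreeGroup.lift F (FreeGroup.mk p.1) * g⁻¹ *
      FreeGroup.lift F (FreeGroup.mk p.2)).prod = GE.ev (ph g (F 0) (F 1)) (F 0) (F 1) n e ∧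
    ((cj n e false).map fun p => g * FreeGroup.lift F (FreeGroup.mk p.1) * g⁻¹ *
      FreeGroup.lift F (FreeGroup.mk p.2)).prod = (GE.ev (ph g (F 0) (F 1)) (F 0) (F 1) n e)⁻¹ := by
  induction e with
  | mul e f ihe ihf =>
    simp only [cj, List.map_append, List.prod_append, ihe.1, ihe.2, ihf.1, ihf.2, GE.ev,
      mul_inv_rev, and_self]
  | inv e ih => exact ⟨ih.2, by rw [GE.ev, inv_inv]; exact ih.1⟩
  | x => constructor <;> simp [cj, GE.ev, ph, wb, wc, mul_assoc]
  | _ => simp [cj, GE.ev]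

theorem undec : ∃ K : ℕ,
    ¬ ComputablePred fun L : List (List (Fin 2 × Bool) × List (Fin 2 × Bool)) =>
      L.length = K ∧ ∃ g : PresentedGroup ({rel2} : Set (FreeGroup (Fin 2))),
        (L.map fun p => g * FreeGroup.lift PresentedGroup.of (FreeGroup.mk p.1) * g⁻¹ *
          FreeGroup.lift PresentedGroup.of (FreeGroup.mk p.2)).prod = 1 := by
  obtain ⟨U, hU⟩ := exists_term_undecidable
  obtain ⟨W, hW⟩ := red U
  exact ⟨(cj 0 W true).length, fun h => hU (ComputablePred.computable_of_manyOneReducible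
    ⟨fun n => cj n W true, (cj_prim W true).to_comp, fun n => by
      simp only [(cj_ev _ _ n W).1, cj_len W true n, true_and]
      exact hW n⟩ h)⟩

end Pool.Agent.FS.BGConj
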